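import Mathlib

/-!
# MP_f1f412_co: squares of trees and of graphs with bridges, in every dimension

For a tree `G` with at least `d + 2` vertices, `d ≥ 2`, the square of `G` is generically globally
rigid in `ℝ^d` if and only if it is `(d+1)`-connected if and only if `G` is a star, while
`(D-1) G`, `D = d (d+1) / 2`, never contains `D` edge-disjoint spanning trees. For every graph with
a bridge that is not a pendant edge both sides of the conjectured equivalence fail.
-/

open SimpleGraph

namespace Pool.Agent.Results.MP_f1f412_co.BridgesAndTrees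

/-- Euclidean `d`-space. -/
abbrev E (d : ℕ) : Type := EuclideanSpace ℝ (Fin d)

section

variable {V : Type} {d : ℕ}

/-- The framework `(H, p)` in `ℝ^d` is globally rigid. -/
def GloballyRigid (H : SimpleGraph V) (p : V → E d) : Prop :=
  ∀ q : V → E d, (∀ u v, H.Adj u v → dist (q u) (q v) = dist (p u) (p v)) →
    ∀ u v, dist (q u) (q v) = dist (p u) (p v)

/-- The coordinates of `p` are algebraically independent over `ℚ`. -/
def Generic (p : V → E d) : Prop := AlgebraicIndependent ℚ fun x : V × Fin d => p x.1 x.2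

/-- The square of a graph. -/
def square (G : SimpleGraph V) : SimpleGraph V where
  Adj u v := u ≠ v ∧ (G.Adj u v ∨ ∃ w, G.Adj u w ∧ G.Adj w v)
  symm := ⟨fun _ _ h => ⟨h.1.symm, h.2.elim (fun h => Or.inl h.symm)
    fun ⟨w, h1, h2⟩ => Or.inr ⟨w, h2.symm, h1.symm⟩⟩⟩
  loopless := ⟨fun _ h => h.1 rfl⟩

/-- `k`-connected: deleting any `k - 1` vertices leaves a connected graph. -/
def KConnected (k : ℕ) (H : SimpleGraph V) : Prop :=
  ∀ S : Finset V, S.card + 1 = k → (H.induce {v | v ∉ S}).Connected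

end

/-- Multigraphs with vertex set `V`. -/
structure Multigraph (V : Type) where
  /-- the edges -/
  E : Type
  /-- the ends of the edges -/
  ends : E → Sym2 V

variable {V : Type}

/-- The multigraph `kG`: every edge of `G` is replaced by `k` parallel copies. -/
def times (k : ℕ) (G : SimpleGraph V) : Multigraph V := ⟨G.edgeSet × Fin k, fun e => e.1.1⟩

/-- A set `T` of edges forms a spanning tree: it contains no loops and no parallel edges, and the
simple graph formed by it is a tree on all vertices. -/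
def Multigraph.IsSpanningTree (M : Multigraph V) (T : Set M.E) : Prop :=
  (∀ e ∈ T, ¬ (M.ends e).IsDiag) ∧ Set.InjOn M.ends T ∧
    (SimpleGraph.fromEdgeSet (M.ends '' T)).IsTree

/-- There are `k` pairwise edge-disjoint spanning trees consisting of edges in `F`. -/
def Multigraph.TreeConnected (M : Multigraph V) (F : Set M.E) (k : ℕ) : Prop :=
  ∃ T : Fin k → Set M.E, (∀ i, T i ⊆ F ∧ M.IsSpanningTree (T i)) ∧
    Pairwise fun i j => Disjoint (T i) (T j)

/-- Highly `k`-tree-connected: deleting any single edge leaves `k` edge-disjoint spanning trees. -/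
def Multigraph.HighlyTreeConnected (M : Multigraph V) (k : ℕ) : Prop :=
  ∀ e : M.E, M.TreeConnected {f | f ≠ e} k

/-- `kG` has no `m > k` edge-disjoint spanning trees if `G` has a bridge. -/
theorem not_treeConnected {k m : ℕ} (hkm : k < m) {G : SimpleGraph V} {x v : V}
    (hb : G.IsBridge s(x, v)) (F : Set (times k G).E) : ¬ (times k G).TreeConnected F m := by
  rintro ⟨T, hT, hdisj⟩
  have h1 : ∀ i : Fin m, ∃ e ∈ T i, e.1.1 = s(x, v) := by
    intro i
    by_contra hno
    push Not at hno
    refine isBridge_iff.1 hb (((hT i).2.2.2.connected.preconnected x v).mono ?_)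
    intro y z hyz
    rw [SimpleGraph.fromEdgeSet_adj] at hyz
    obtain ⟨⟨e, he, hev⟩, _⟩ := hyz
    have h2 : e.1.1 = s(y, z) := hev
    rw [deleteEdges_adj, ← mem_edgeSet, ← h2]
    exact ⟨e.1.2, fun h => hno e he h⟩
  choose e he hee using h1
  obtain ⟨i, j, hij, h⟩ := Fintype.exists_ne_map_eq_of_card_lt (fun i => (e i).2) (by simpa)
  have h2 : e i = e j := by
    refine Prod.ext (Subtype.ext ?_) h
    rw [hee, hee]
  exact Set.disjoint_left.1 (hdisj hij) (he i) (h2 ▸ he j)

theorem square_star {G : SimpleGraph V} {r : V} (hr : ∀ v, v ≠ r → G.Adj r v) :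
    square G = ⊤ := by
  ext u v
  rw [SimpleGraph.top_adj]
  refine ⟨fun h => h.1, fun h => ⟨h, ?_⟩⟩
  by_cases hu : u = r
  · subst hu; exact Or.inl (hr v h.symm)
  · by_cases hv : v = r
    · subst hv; exact Or.inl (hr u hu).symm
    · exact Or.inr ⟨r, (hr u hu).symm, hr v hv⟩

theorem rigid_top {d : ℕ} (p : V → E d) : GloballyRigid (⊤ : SimpleGraph V) p := by
  intro q hq u v
  rcases eq_or_ne u v with rfl | h
  · simp
  · exact hq u v h

theorem connected_top [Fintype V] (k : ℕ) (hk : k ≤ Fintype.card V) :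
    KConnected k (⊤ : SimpleGraph V) := by
  intro S hS
  have hcard : ∃ w : V, w ∉ S := by
    by_contra hc
    push Not at hc
    have h3 : S = Finset.univ := Finset.eq_univ_iff_forall.2 hc
    rw [h3, Finset.card_univ] at hS
    omega
  obtain ⟨w, hw⟩ := hcard
  have : Nonempty {v | v ∉ S} := ⟨⟨w, hw⟩⟩
  refine ⟨fun a b => ?_⟩
  rcases eq_or_ne a b with rfl | hab
  · exact SimpleGraph.Reachable.refl _
  · refine SimpleGraph.Adj.reachable ?_
    rw [SimpleGraph.comap_adj]
    exact fun h => hab (Subtype.ext h)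

open Cardinal in
theorem exists_generic [Finite V] (d : ℕ) : ∃ p : V → E d, Generic p := by
  obtain ⟨s, hs⟩ := exists_isTranscendenceBasis ℚ ℝ
  have hinf : Infinite s := by
    by_contra hfin
    rw [not_infinite_iff_finite] at hfin
    have halg := hs.isAlgebraic
    have h1 := Algebra.IsAlgebraic.cardinalMk_le_max
      (Algebra.adjoin ℚ (Set.range ((↑) : s → ℝ))) ℝ
    have h2 : #(Algebra.adjoin ℚ (Set.range ((↑) : s → ℝ))) ≤ ℵ₀ := by
      refine (Algebra.cardinalMk_adjoin_le ℚ _).trans ?_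
      rw [Subtype.range_coe]
      simp
    have h3 : #ℝ ≤ ℵ₀ := h1.trans (max_le h2 le_rfl)
    rw [Cardinal.mk_real] at h3
    exact absurd h3 (not_le.2 Cardinal.aleph0_lt_continuum)
  have : Finite (V × Fin d) := inferInstance
  obtain ⟨n, ⟨g⟩⟩ := Finite.exists_equiv_fin (V × Fin d)
  set f : V × Fin d → s := fun x => Infinite.natEmbedding s (g x : ℕ) with hf
  have hfi : Function.Injective f := fun x y h =>
    g.injective (Fin.ext ((Infinite.natEmbedding s).injective h))
  refine ⟨fun v => WithLp.toLp 2 fun i => (f (v, i) : ℝ), ?_⟩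
  exact hs.1.comp f hfi

/-- Three different points of a generic configuration are not collinear. -/
theorem not_collinear {d : ℕ} (hd : 2 ≤ d) {p : V → E d} (hp : Generic p) {a u v : V}
    (hau : a ≠ u) (hav : a ≠ v) (huv : u ≠ v) (t : ℝ) : p a - p u ≠ t • (p v - p u) := by
  classical
  intro h
  let i0 : Fin d := ⟨0, by omega⟩
  let i1 : Fin d := ⟨1, by omega⟩
  have h0 : p a i0 - p u i0 = t * (p v i0 - p u i0) := by
    simpa using congrArg (fun z : E d => z i0) h
  have h1 : p a i1 - p u i1 = t * (p v i1 - p u i1) := by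
    simpa using congrArg (fun z : E d => z i1) h
  let P : MvPolynomial (V × Fin d) ℚ :=
    (MvPolynomial.X (a, i0) - MvPolynomial.X (u, i0)) *
      (MvPolynomial.X (v, i1) - MvPolynomial.X (u, i1)) -
    (MvPolynomial.X (a, i1) - MvPolynomial.X (u, i1)) *
      (MvPolynomial.X (v, i0) - MvPolynomial.X (u, i0))
  have hP : MvPolynomial.aeval (fun x : V × Fin d => p x.1 x.2) P = 0 := by
    simp only [P, map_sub, map_mul, MvPolynomial.aeval_X]
    rw [h0, h1]
    ring
  have hP0 : P = 0 := algebraicIndependent_iff.1 hp P hP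
  have hi : i0 ≠ i1 := by simp [i0, i1]
  have := congrArg (MvPolynomial.eval (fun x : V × Fin d =>
    if x = (a, i0) then (1 : ℚ) else if x = (v, i1) then 1 else 0)) hP0
  simp [P, hau.symm, hav, hav.symm, huv, hi, hi.symm] at this

/-- Reflection in the hyperplane orthogonal to `n`. -/
noncomputable def refl {d : ℕ} (n z : E d) : E d := z - (2 * inner ℝ n z / ‖n‖ ^ 2) • n

theorem refl_sub {d : ℕ} (n x y : E d) : refl n x - refl n y = refl n (x - y) := by
  unfold refl
  rw [inner_sub_right]
  module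

theorem refl_inner {d : ℕ} {n : E d} (x y : E d) :
    inner ℝ (refl n x) y = inner ℝ x y - 2 * inner ℝ n x * inner ℝ n y / ‖n‖ ^ 2 := by
  unfold refl
  rw [inner_sub_left, inner_smul_left]
  simp
  ring

theorem refl_norm {d : ℕ} {n : E d} (hn : n ≠ 0) (x : E d) : ‖refl n x‖ = ‖x‖ := by
  have h : ‖refl n x‖ ^ 2 = ‖x‖ ^ 2 := by
    rw [← real_inner_self_eq_norm_sq, refl_inner, real_inner_comm, refl_inner,
      ← real_inner_self_eq_norm_sq x]
    have h2 : inner ℝ n (refl n x) = - inner ℝ n x := by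
      rw [real_inner_comm, refl_inner, real_inner_self_eq_norm_sq, real_inner_comm]
      have : ‖n‖ ^ 2 ≠ 0 := by positivity
      field_simp
      ring
    rw [h2]
    ring
  exact (sq_eq_sq₀ (norm_nonneg _) (norm_nonneg _)).1 h

theorem exists_normal {d : ℕ} (w a b : E d) (ha : ∀ t : ℝ, a ≠ t • w) (hb : ∀ t : ℝ, b ≠ t • w) :
    ∃ n : E d, inner ℝ n w = 0 ∧ inner ℝ n a ≠ 0 ∧ inner ℝ n b ≠ 0 := by
  have key : ∀ x : E d, (∀ t : ℝ, x ≠ t • w) → ∃ y : E d, inner ℝ y w = 0 ∧ inner ℝ y x ≠ 0 := by
    intro x hx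
    obtain ⟨t, ht⟩ : ∃ t : ℝ, inner ℝ (x - t • w) w = 0 := by
      by_cases hw : w = 0
      · exact ⟨0, by simp [hw]⟩
      · refine ⟨inner ℝ x w / ‖w‖ ^ 2, ?_⟩
        rw [inner_sub_left, inner_smul_left, real_inner_self_eq_norm_sq]
        have : ‖w‖ ^ 2 ≠ 0 := by positivity
        simp
        field_simp
        ring
    refine ⟨x - t • w, ht, ?_⟩
    have e : inner ℝ (x - t • w) x = inner ℝ (x - t • w) (x - t • w) := by
      rw [inner_sub_right, inner_smul_right, ht]
      ring
    rw [e]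
    exact inner_self_ne_zero.2 (sub_ne_zero.2 (hx t))
  obtain ⟨y, hy, hya⟩ := key a ha
  obtain ⟨z, hz, hzb⟩ := key b hb
  by_cases h1 : inner ℝ y b = 0
  · by_cases h2 : inner ℝ z a = 0
    · refine ⟨y + z, ?_, ?_, ?_⟩
      · rw [inner_add_left, hy, hz, add_zero]
      · rwa [inner_add_left, h2, add_zero]
      · rwa [inner_add_left, h1, zero_add]
    · exact ⟨z, hz, h2, hzb⟩
  · exact ⟨y, hy, hya, h1⟩

/-- A bridge `xv` and its two sides. -/
theorem split {G : SimpleGraph V} {x v a b : V} (hbr : G.IsBridge s(x, v)) (hxv : G.Adj x v)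
    (hax : G.Adj a x) (hav : a ≠ v) (hbv : G.Adj b v) (hbx : b ≠ x) :
    ∃ A : Set V, x ∈ A ∧ v ∉ A ∧ a ∈ A ∧ b ∉ A ∧
      ∀ y ∈ A, ∀ z, z ∉ A → (square G).Adj y z → y = x ∨ z = v := by
  have hb := isBridge_iff.1 hbr
  let G' := G.deleteEdges {s(x, v)}
  have adj' : ∀ y z, G.Adj y z → s(y, z) ≠ s(x, v) → G'.Adj y z := by
    intro y z h1 h2
    simp only [G', deleteEdges_adj, Set.mem_singleton_iff]
    exact ⟨h1, h2⟩
  let A : Set V := {y | G'.Reachable x y}
  have hv : v ∉ A := hb
  have cross : ∀ y ∈ A, ∀ z, z ∉ A → G.Adj y z → y = x ∧ z = v := by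
    intro y hy z hz h
    by_cases e : s(y, z) = s(x, v)
    · rw [Sym2.eq_iff] at e
      rcases e with e | e
      · exact e
      · exact absurd (e.1 ▸ hy) hv
    · exact absurd (hy.trans (adj' y z h e).reachable) hz
  refine ⟨A, Reachable.refl _, hv, ?_, ?_, ?_⟩
  · refine (adj' x a hax.symm fun h => ?_).reachable
    rw [Sym2.eq_iff] at h
    rcases h with h | h
    · exact hav h.2
    · exact hxv.ne h.1
  · intro hbA
    refine hv (hbA.trans (adj' b v hbv fun h => ?_).reachable)
    rw [Sym2.eq_iff] at h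
    rcases h with h | h
    · exact hbx h.1
    · exact hxv.ne h.2.symm
  · rintro y hy z hz ⟨-, h | ⟨w, h1, h2⟩⟩
    · exact Or.inl (cross y hy z hz h).1
    · by_cases hw : w ∈ A
      · exact Or.inr (cross w hw z hz h2).2
      · exact Or.inl (cross y hy w hw h1).1

/-- A tree which is not a star contains a path with three edges. -/
theorem exists_path {G : SimpleGraph V} (hG : G.Connected) (h : ∀ r, ∃ v, v ≠ r ∧ ¬ G.Adj r v) :
    ∃ x v a b, G.Adj x v ∧ G.Adj a x ∧ a ≠ v ∧ G.Adj b v ∧ b ≠ x := by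
  have two : ∀ r, ∃ v b, G.Adj r v ∧ G.Adj v b ∧ b ≠ r := by
    intro r
    obtain ⟨z, hz, hrz⟩ := h r
    obtain ⟨w, hw⟩ := (hG.preconnected r z).exists_isPath
    cases w with
    | nil => exact absurd rfl hz
    | cons h1 w =>
      rename_i v
      cases w with
      | nil => exact absurd h1 hrz
      | cons h2 w =>
        rename_i b
        refine ⟨v, b, h1, h2, ?_⟩
        rintro rfl
        rw [Walk.cons_isPath_iff] at hw
        exact hw.2 (by simp)
  obtain ⟨r⟩ := hG.nonempty
  obtain ⟨x, y, h1, h2, h3⟩ := two r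
  obtain ⟨v, b, h4, h5, h6⟩ := two x
  by_cases e : r = v
  · exact ⟨x, v, y, b, h4, h2.symm, fun h' => h3 (h'.trans e.symm), h5.symm, h6⟩
  · exact ⟨x, v, r, b, h4, h1, e, h5.symm, h6⟩

theorem not_rigid {d : ℕ} (hd : 2 ≤ d) {G : SimpleGraph V} {x v a b : V}
    (hbr : G.IsBridge s(x, v)) (hxv : G.Adj x v) (hax : G.Adj a x) (hav : a ≠ v)
    (hbv : G.Adj b v) (hbx : b ≠ x) (p : V → E d) (hp : Generic p) :
    ¬ GloballyRigid (square G) p := by
  classical
  intro hr
  obtain ⟨A, hxA, hvA, haA, hbA, hA⟩ := split hbr hxv hax hav hbv hbx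
  obtain ⟨n, hn, hna, hnb⟩ := exists_normal (p v - p x) (p a - p x) (p b - p x)
    (not_collinear hd hp hax.ne hav hxv.ne) (not_collinear hd hp hbx hbv.ne hxv.ne)
  have hn0 : n ≠ 0 := by rintro rfl; simp at hna
  let R : E d → E d := fun z => p x + refl n (z - p x)
  have hR : ∀ y z, dist (R y) (R z) = dist y z := by
    intro y z
    rw [dist_eq_norm, dist_eq_norm]
    have : R y - R z = refl n (y - z) := by
      simp only [R]
      rw [add_sub_add_left_eq_sub, refl_sub]
      congr 1
      abel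
    rw [this, refl_norm hn0]
  have hRx : R (p x) = p x := by simp [R, refl]
  have hRv : R (p v) = p v := by simp [R, refl, hn]
  let q : V → E d := fun y => if y ∈ A then R (p y) else p y
  have q1 : ∀ y, y ∈ A → q y = R (p y) := fun y hy => if_pos hy
  have q2 : ∀ y, y ∉ A → q y = p y := fun y hy => if_neg hy
  have cross : ∀ y z, (square G).Adj y z → y ∈ A → z ∉ A → dist (q y) (q z) = dist (p y) (p z) := by
    intro y z hyz hy hz
    rw [q1 y hy, q2 z hz]
    rcases hA y hy z hz hyz with rfl | rfl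
    · rw [hRx]
    · rw [← hRv, hR, hRv]
  have := hr q (fun y z hyz => by
    by_cases hy : y ∈ A
    · by_cases hz : z ∈ A
      · rw [q1 y hy, q1 z hz, hR]
      · exact cross y z hyz hy hz
    · by_cases hz : z ∈ A
      · rw [_root_.dist_comm, cross z y hyz.symm hz hy, _root_.dist_comm]
      · rw [q2 y hy, q2 z hz]) a b
  rw [q1 a haA, q2 b hbA, dist_eq_norm, dist_eq_norm] at this
  have e1 : R (p a) - p b = refl n (p a - p x) - (p b - p x) := by simp only [R]; abel
  have e2 : p a - p b = (p a - p x) - (p b - p x) := by abel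
  rw [e1, e2] at this
  have h3 := congrArg (fun t : ℝ => t ^ 2) this
  beta_reduce at h3
  rw [norm_sub_sq_real (refl n (p a - p x)) (p b - p x),
    norm_sub_sq_real (p a - p x) (p b - p x), refl_norm hn0, refl_inner] at h3
  have h4 : 2 * inner ℝ n (p a - p x) * inner ℝ n (p b - p x) / ‖n‖ ^ 2 = 0 := by linarith
  have : ‖n‖ ^ 2 ≠ 0 := by positivity
  simp [hna, hnb, hn0] at h4

theorem not_connected {d : ℕ} (hd : 2 ≤ d) [Fintype V] (hV : d + 2 ≤ Fintype.card V)
    {G : SimpleGraph V} {x v a b : V} (hbr : G.IsBridge s(x, v)) (hxv : G.Adj x v)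
    (hax : G.Adj a x) (hav : a ≠ v) (hbv : G.Adj b v) (hbx : b ≠ x) :
    ¬ KConnected (d + 1) (square G) := by
  classical
  intro hc
  obtain ⟨A, hxA, hvA, haA, hbA, hA⟩ := split hbr hxv hax hav hbv hbx
  have hab : a ≠ b := fun e => hbA (e ▸ haA)
  obtain ⟨S, hS1, hS2, hS3⟩ := Finset.exists_subsuperset_card_eq
    (s := {x, v}) (t := ({a, b} : Finset V)ᶜ) (n := d) (by
      intro y hy
      simp only [Finset.mem_insert, Finset.mem_singleton] at hy
      simp only [Finset.mem_compl, Finset.mem_insert, Finset.mem_singleton]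
      rcases hy with rfl | rfl
      · rintro (h | h)
        · exact hax.ne h.symm
        · exact hbx h.symm
      · rintro (h | h)
        · exact hav h.symm
        · exact hbv.ne h.symm) (by rw [Finset.card_pair hxv.ne]; exact hd) (by
      rw [Finset.card_compl, Finset.card_pair hab]; omega)
  have haS : a ∉ S := fun h => by simpa using hS2 h
  have hbS : b ∉ S := fun h => by simpa using hS2 h
  have hxS : x ∈ S := hS1 (by simp)
  have hvS : v ∈ S := hS1 (by simp)
  obtain ⟨w⟩ := (hc S (by rw [hS3])).preconnected ⟨a, haS⟩ ⟨b, hbS⟩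
  have key : ∀ (y z : {v | v ∉ S}) (_ : ((square G).induce {v | v ∉ S}).Walk y z),
      y.1 ∈ A → z.1 ∈ A := by
    intro y z w
    induction w with
    | nil => exact id
    | @cons y y' z h1 _ ih =>
      intro hy
      refine ih ?_
      by_contra hy'
      rcases hA y.1 hy y'.1 hy' h1 with e | e
      · exact y.2 (e ▸ hxS)
      · exact y'.2 (e ▸ hvS)
  exact hbA (key _ _ w haA)

/-- **Graphs with bridges, in every dimension.** Let `d ≥ 2`, `D = d (d + 1) / 2`, and let `G` be
a finite graph with at least `d + 2` vertices.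
(1) If `G` has a bridge `xv`, then `(D - 1) G` does not contain `D` edge-disjoint spanning trees. If
moreover `x` and `v` have other neighbours, then `G²` is not `(d+1)`-connected and is not globally
rigid in `ℝ^d` for any generic configuration; so both sides of the equivalence fail.
(2) For trees the equivalence fails exactly for the stars: if `G` is a star, then `G²` is
`(d+1)`-connected and globally rigid for every generic configuration; if `G` is a tree but not a
star, then `G²` is neither.
(3) For `d = 3` this gives the negation of Q1, for every number `n ≥ 5` of vertices. -/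
theorem result :
    (∀ (d : ℕ), 2 ≤ d → ∀ (V : Type) [Fintype V] (G : SimpleGraph V) (x v : V),
      d + 2 ≤ Fintype.card V → G.Adj x v → G.IsBridge s(x, v) →
      ¬ (times (d * (d + 1) / 2 - 1) G).TreeConnected Set.univ (d * (d + 1) / 2) ∧
      ¬ (times (d * (d + 1) / 2 - 1) G).HighlyTreeConnected (d * (d + 1) / 2) ∧
      ∀ a b : V, G.Adj a x → a ≠ v → G.Adj b v → b ≠ x → ¬ KConnected (d + 1) (square G) ∧
        ∀ p : V → E d, Generic p → ¬ GloballyRigid (square G) p) ∧
    (∀ (d : ℕ), 2 ≤ d → ∀ (V : Type) [Fintype V] (G : SimpleGraph V), G.IsTree →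
      d + 2 ≤ Fintype.card V →
      (∃ p : V → E d, Generic p) ∧
      ¬ (times (d * (d + 1) / 2 - 1) G).HighlyTreeConnected (d * (d + 1) / 2) ∧
      ((∃ r, ∀ v, v ≠ r → G.Adj r v) → KConnected (d + 1) (square G) ∧
        ∀ p : V → E d, Generic p → GloballyRigid (square G) p) ∧
      ((¬ ∃ r, ∀ v, v ≠ r → G.Adj r v) → ¬ KConnected (d + 1) (square G) ∧
        ∀ p : V → E d, Generic p → ¬ GloballyRigid (square G) p)) ∧
    (∀ n : ℕ, 5 ≤ n → ¬ ∀ G : SimpleGraph (Fin n),
      (∀ (v : Fin n) (c : G.Walk v v), c.IsCycle → 5 ≤ c.length) →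
      ((∃ p : Fin n → E 3, Generic p ∧ GloballyRigid (square G) p) ↔
        KConnected 4 (square G) ∧ (times 5 G).HighlyTreeConnected 6)) := by
  have main1 : ∀ (d : ℕ), 2 ≤ d → ∀ (V : Type) [Fintype V] (G : SimpleGraph V) (x v : V),
      d + 2 ≤ Fintype.card V → G.Adj x v → G.IsBridge s(x, v) →
      ¬ (times (d * (d + 1) / 2 - 1) G).TreeConnected Set.univ (d * (d + 1) / 2) ∧
      ¬ (times (d * (d + 1) / 2 - 1) G).HighlyTreeConnected (d * (d + 1) / 2) ∧
      ∀ a b : V, G.Adj a x → a ≠ v → G.Adj b v → b ≠ x → ¬ KConnected (d + 1) (square G) ∧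
        ∀ p : V → E d, Generic p → ¬ GloballyRigid (square G) p := by
    intro d hd V _ G x v hV hxv hb
    have hD : 3 ≤ d * (d + 1) / 2 := by
      rw [Nat.le_div_iff_mul_le (by norm_num)]
      nlinarith
    have hkm : d * (d + 1) / 2 - 1 < d * (d + 1) / 2 := by omega
    exact ⟨not_treeConnected hkm hb _, fun h => not_treeConnected hkm hb _
      (h (⟨s(x, v), hxv⟩, ⟨0, by omega⟩)), fun a b hax hav hbv hbx =>
      ⟨not_connected hd hV hb hxv hax hav hbv hbx, not_rigid hd hb hxv hax hav hbv hbx⟩⟩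
  have main2 : ∀ (d : ℕ), 2 ≤ d → ∀ (V : Type) [Fintype V] (G : SimpleGraph V), G.IsTree →
      d + 2 ≤ Fintype.card V →
      (∃ p : V → E d, Generic p) ∧
      ¬ (times (d * (d + 1) / 2 - 1) G).HighlyTreeConnected (d * (d + 1) / 2) ∧
      ((∃ r, ∀ v, v ≠ r → G.Adj r v) → KConnected (d + 1) (square G) ∧
        ∀ p : V → E d, Generic p → GloballyRigid (square G) p) ∧
      ((¬ ∃ r, ∀ v, v ≠ r → G.Adj r v) → ¬ KConnected (d + 1) (square G) ∧
        ∀ p : V → E d, Generic p → ¬ GloballyRigid (square G) p) := by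
    intro d hd V _ G hG hV
    have hnt : Nontrivial V := Fintype.one_lt_card_iff_nontrivial.1 (by omega)
    have hbr : ∀ x v, G.Adj x v → G.IsBridge s(x, v) := fun x v h =>
      isAcyclic_iff_forall_adj_isBridge.1 hG.isAcyclic h
    refine ⟨exists_generic d, ?_, ?_, ?_⟩
    · obtain ⟨a, b, hab⟩ : ∃ a b, G.Adj a b := by
        obtain ⟨a, b, hne⟩ := exists_pair_ne V
        obtain ⟨w⟩ := hG.connected.preconnected a b
        cases w with
        | nil => exact absurd rfl hne
        | cons h _ => exact ⟨_, _, h⟩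
      exact (main1 d hd V G a b hV hab (hbr a b hab)).2.1
    · rintro ⟨r, hr⟩
      rw [square_star hr]
      exact ⟨connected_top _ (by omega), fun p _ => rigid_top p⟩
    · intro h
      push Not at h
      obtain ⟨x, v, a, b, hxv, hax, hav, hbv, hbx⟩ := exists_path hG.connected h
      exact (main1 d hd V G x v hV hxv (hbr x v hxv)).2.2 a b hax hav hbv hbx
  refine ⟨main1, main2, fun n hn H => ?_⟩
  have r : Fin n := ⟨0, by omega⟩
  obtain ⟨⟨p, hp⟩, h2, h3, -⟩ := main2 3 (by norm_num) (Fin n) (starGraph r)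
    (isTree_starGraph (r := r)) (by simpa using hn)
  have hs : ∃ r', ∀ v, v ≠ r' → (starGraph r).Adj r' v :=
    ⟨r, fun v hv => by rw [starGraph_adj]; exact ⟨hv.symm, Or.inl rfl⟩⟩
  exact h2 ((H (starGraph r) fun w c hc => absurd hc ((isTree_starGraph (r := r)).isAcyclic c)).1
    ⟨p, hp, (h3 hs).2 p hp⟩).2

end Pool.Agent.Results.MP_f1f412_co.BridgesAndTrees
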